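import Mathlib
import Pool.Agent.H205R3.Horo
import Pool.Agent.T6.H29.Horo.Orbit

/-!
# Finite orbits of horofunctions: virtually abelian groups, arbitrary word metrics

For every infinite group with an abelian subgroup of finite index and for every finite symmetric
generating set, the closure of the orbit of every horofunction contains a horofunction with
finite orbit.
-/

set_option autoImplicit false

open Filter Topology Set

namespace Pool.Agent.Results.MP_3614fc_al.VirtuallyAbelian

/-- The word length of `g` with respect to `S`: the least length of a list of elements of `S` with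
product `g`. -/
noncomputable def wordLength {G : Type} [Group G] (S : Finset G) (g : G) : ℕ :=
  sInf {m : ℕ | ∃ l : List G, l.length = m ∧ (∀ s ∈ l, s ∈ S) ∧ l.prod = g}

/-- `f` is a horofunction of the word metric `d(x, y) = |x⁻¹ y|` of `S`: there is a sequence `x n`
with `|(x n)⁻¹| → ∞` and `f y = lim (|(x n)⁻¹ y| - |(x n)⁻¹|)` for every `y`. -/
def IsHorofunction {G : Type} [Group G] (S : Finset G) (f : G → ℝ) : Prop :=
  ∃ x : ℕ → G, Tendsto (fun n : ℕ => (wordLength S (x n)⁻¹ : ℝ)) atTop atTop ∧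
    ∀ y : G, Tendsto (fun n : ℕ => (wordLength S ((x n)⁻¹ * y) : ℝ) - (wordLength S (x n)⁻¹ : ℝ))
      atTop (𝓝 (f y))

/-- The action of `g` on the functions on `G`: `(g · f)(y) = f(g⁻¹ y) - f(g⁻¹)`. -/
def act {G : Type} [Group G] (g : G) (f : G → ℝ) : G → ℝ := fun y => f (g⁻¹ * y) - f g⁻¹

open Pool.Agent.H205R3.Horo in
theorem wordLength_eq {G : Type} [Group G] (S : Finset G) (hs : ∀ s ∈ S, s⁻¹ ∈ S) (g : G) :
    wordLength S g = wl S g := by
  unfold wordLength wl
  congr 1
  ext m
  constructor
  · rintro ⟨l, h1, h2, h3⟩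
    exact ⟨l, h1, fun s h => Or.inl (h2 s h), h3⟩
  · rintro ⟨l, h1, h2, h3⟩
    refine ⟨l, h1, fun s h => ?_, h3⟩
    rcases h2 s h with h | h
    · exact h
    · have := hs _ h
      rwa [inv_inv] at this

section

open Pool.Agent.H205R3.Horo

variable {G : Type} [Group G] (S : Finset G)

theorem wl_mul_le (hS : Subgroup.closure (S : Set G) = ⊤) (a b : G) :
    wl S (a * b) ≤ wl S a + wl S b := by
  obtain ⟨u, hu, hu'⟩ := exists_geod hS a
  obtain ⟨v, hv, hv'⟩ := exists_geod hS b
  have := wl_le (u ++ v)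
  rw [ev_append, hu, hv, List.length_append, hu', hv'] at this
  exact this

theorem wl_inv_le (hS : Subgroup.closure (S : Set G) = ⊤) (a : G) : wl S a⁻¹ ≤ wl S a := by
  obtain ⟨u, hu, hu'⟩ := exists_geod hS a
  rw [← hu']
  apply Nat.sInf_le
  refine ⟨(u.map (fun s : Ltr S => (s : G)⁻¹)).reverse, by simp, ?_, ?_⟩
  · intro s hs
    rw [List.mem_reverse, List.mem_map] at hs
    obtain ⟨t, -, rfl⟩ := hs
    rcases t.2 with h | h
    · right; simpa using h
    · left; exact h
  · rw [← hu]
    unfold ev
    rw [List.prod_inv_reverse, List.map_map]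
    rfl

theorem wl_inv (hS : Subgroup.closure (S : Set G) = ⊤) (a : G) : wl S a⁻¹ = wl S a := by
  apply le_antisymm (wl_inv_le S hS a)
  have := wl_inv_le S hS a⁻¹
  rwa [inv_inv] at this

theorem finite_ball (hS : Subgroup.closure (S : Set G) = ⊤) (R : ℕ) :
    {g : G | wl S g ≤ R}.Finite := by
  have h1 : {l : List (Ltr S) | l.length ≤ R}.Finite := List.finite_length_le _ R
  refine (h1.image ev).subset ?_
  intro g hg
  obtain ⟨u, hu, hu'⟩ := exists_geod hS g
  refine ⟨u, ?_, hu⟩
  have : wl S g ≤ R := hg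
  show u.length ≤ R
  omega

theorem abs_mf_le (hS : Subgroup.closure (S : Set G) = ⊤) (x y : G) : |mf S x y| ≤ wl S y := by
  unfold mf
  rw [mul_one]
  have h1 := wl_mul_le S hS x⁻¹ y
  have h2 := wl_mul_le S hS (x⁻¹ * y) y⁻¹
  rw [mul_inv_cancel_right, wl_inv S hS y] at h2
  have h1' : (wl S (x⁻¹ * y) : ℝ) ≤ wl S x⁻¹ + wl S y := by exact_mod_cast h1
  have h2' : (wl S x⁻¹ : ℝ) ≤ wl S (x⁻¹ * y) + wl S y := by exact_mod_cast h2
  rw [abs_le]
  constructor <;> linarith

/-- The functions `mf S x` with `|x⁻¹| ≥ R`. -/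
def tail (R : ℕ) : Set (G → ℝ) := mf S '' {x | R ≤ wl S x⁻¹}

/-- The set of all limits. -/
def lim : Set (G → ℝ) := ⋂ R : ℕ, closure (tail S R)

theorem lim_subset : lim S ⊆ closure (range (mf S)) := by
  intro f hf
  exact closure_mono (image_subset_range _ _) (mem_iInter.1 hf 0)

theorem isClosed_lim : IsClosed (lim S) := isClosed_iInter fun _ => isClosed_closure

theorem isCompact_closure_range (hS : Subgroup.closure (S : Set G) = ⊤) :
    IsCompact (closure (range (mf S))) := by
  have h1 : IsCompact (Set.pi univ fun y : G => Icc (-(wl S y : ℝ)) (wl S y)) :=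
    isCompact_univ_pi fun y => isCompact_Icc
  refine h1.of_isClosed_subset isClosed_closure (closure_minimal ?_ h1.isClosed)
  rintro _ ⟨x, rfl⟩ y -
  exact abs_le.1 (abs_mf_le S hS x y)

theorem isCompact_lim (hS : Subgroup.closure (S : Set G) = ⊤) : IsCompact (lim S) :=
  (isCompact_closure_range S hS).of_isClosed_subset (isClosed_lim S) (lim_subset S)

theorem act_mf (g x : G) : act g (mf S x) = mf S (g * x) := by
  funext y
  simp only [act, mf, mul_inv_rev, mul_one, mul_assoc]
  ring

theorem act_one (f : G → ℝ) (hf : f 1 = 0) : act 1 f = f := by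
  funext y
  simp [act, hf]

theorem act_mul (g h : G) (f : G → ℝ) : act (g * h) f = act g (act h f) := by
  funext y
  simp only [act, mul_inv_rev, mul_assoc]
  ring

theorem continuous_act (g : G) : Continuous (act g : (G → ℝ) → G → ℝ) := by
  refine continuous_pi fun y => ?_
  exact (continuous_apply _).sub (continuous_apply _)

theorem act_mem_lim (hS : Subgroup.closure (S : Set G) = ⊤) (g : G) {f : G → ℝ}
    (hf : f ∈ lim S) : act g f ∈ lim S := by
  refine mem_iInter.2 fun R => ?_
  have h1 := mem_iInter.1 hf (R + wl S g)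
  refine map_mem_closure (continuous_act g) h1 ?_
  rintro _ ⟨x, hx, rfl⟩
  refine ⟨g * x, ?_, (act_mf S g x).symm⟩
  have h2 := wl_mul_le S hS (g * x)⁻¹ g
  rw [mul_inv_rev, inv_mul_cancel_right] at h2
  have h3 : R + wl S g ≤ wl S x⁻¹ := hx
  show R ≤ wl S (g * x)⁻¹
  rw [mul_inv_rev]
  omega

theorem lim_nonempty [Infinite G] (hS : Subgroup.closure (S : Set G) = ⊤) : (lim S).Nonempty := by
  refine IsCompact.nonempty_iInter_of_sequence_nonempty_isCompact_isClosed
    (fun R => closure (tail S R)) ?_ ?_ ?_ (fun _ => isClosed_closure)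
  · intro R
    refine closure_mono (image_mono ?_)
    intro x hx
    exact le_trans (Nat.le_succ R) hx
  · intro R
    have h1 : ({g : G | wl S g ≤ R}ᶜ).Nonempty := (finite_ball S hS R).infinite_compl.nonempty
    obtain ⟨x, hx⟩ := h1
    refine ⟨mf S x⁻¹, subset_closure ⟨x⁻¹, ?_, rfl⟩⟩
    show R ≤ wl S (x⁻¹)⁻¹
    rw [inv_inv]
    have : ¬ wl S x ≤ R := hx
    omega
  · exact (isCompact_closure_range S hS).of_isClosed_subset isClosed_closure
      (closure_mono (image_subset_range _ _))

theorem mem_lim_iff (hS : Subgroup.closure (S : Set G) = ⊤) (hs : ∀ s ∈ S, s⁻¹ ∈ S) (f : G → ℝ) :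
    f ∈ lim S ↔ IsHorofunction S f := by
  have : Countable G := countable_group hS
  unfold IsHorofunction
  simp only [wordLength_eq S hs]
  constructor
  · intro hf
    obtain ⟨V, hV⟩ := (𝓝 f).exists_antitone_basis
    have h1 : ∀ n, ∃ x : G, n ≤ wl S x⁻¹ ∧ mf S x ∈ V n := by
      intro n
      obtain ⟨_, h2, x, hx, rfl⟩ := mem_closure_iff_nhds.1 (mem_iInter.1 hf n) (V n) (hV.mem n)
      exact ⟨x, hx, h2⟩
    choose x hx1 hx2 using h1
    refine ⟨x, ?_, ?_⟩
    · exact tendsto_atTop_mono (fun n => Nat.cast_le.2 (hx1 n)) tendsto_natCast_atTop_atTop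
    · intro y
      have h3 : Tendsto (fun n => mf S (x n)) atTop (𝓝 f) := hV.tendsto hx2
      have h4 := tendsto_pi_nhds.1 h3 y
      simpa [mf] using h4
  · rintro ⟨x, hx1, hx2⟩
    refine mem_iInter.2 fun R => ?_
    have h3 : Tendsto (fun n => mf S (x n)) atTop (𝓝 f) := by
      refine tendsto_pi_nhds.2 fun y => ?_
      simpa [mf] using hx2 y
    refine mem_closure_of_tendsto h3 ?_
    filter_upwards [hx1.eventually_ge_atTop (R : ℝ)] with n hn
    exact ⟨x n, by exact_mod_cast hn, rfl⟩

end

open Pool.Agent.H205R3.Horo in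
/-- Let `G` be an infinite group with an abelian subgroup `A` of finite index, and let `S` be a finite
symmetric generating set. Then horofunctions of the word metric of `S` exist, and for every
horofunction `f` the pointwise closure of the orbit of `f` contains a horofunction with finite
orbit. -/
theorem result (G : Type) [Group G] [Infinite G] (A : Subgroup G) (hA : A.FiniteIndex)
    (hcomm : ∀ a ∈ A, ∀ b ∈ A, a * b = b * a) (S : Finset G) (hsymm : ∀ s ∈ S, s⁻¹ ∈ S)
    (hS : Subgroup.closure (S : Set G) = ⊤) :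
    (∃ f : G → ℝ, IsHorofunction S f) ∧
      ∀ f : G → ℝ, IsHorofunction S f →
        ∃ h ∈ closure (Set.range fun g : G => act g f),
          IsHorofunction S h ∧ (Set.range fun g : G => act g h).Finite := by
  refine ⟨?_, ?_⟩
  · obtain ⟨f, hf⟩ := lim_nonempty S hS
    exact ⟨f, (mem_lim_iff S hS hsymm f).1 hf⟩
  · intro f hf
    rw [← mem_lim_iff S hS hsymm] at hf
    set K := closure (Set.range fun g : G => act g f) with hK
    have hKl : K ⊆ lim S := closure_minimal (by
      rintro _ ⟨g, rfl⟩
      exact act_mem_lim S hS g hf) (isClosed_lim S)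
    have h0 : ∀ h ∈ lim S, h 1 = 0 := by
      intro h hh
      have h1 : IsClosed {h : G → ℝ | h 1 = 0} := isClosed_eq (continuous_apply 1) continuous_const
      have h2 : closure (Set.range (mf S)) ⊆ {h : G → ℝ | h 1 = 0} := by
        refine closure_minimal ?_ h1
        rintro _ ⟨x, rfl⟩
        show mf S x 1 = 0
        simp [mf]
      exact h2 (lim_subset S hh)
    have hinv : ∀ g : G, ∀ k ∈ K, act g k ∈ K := by
      intro g k hk
      refine map_mem_closure (continuous_act g) hk ?_
      rintro _ ⟨x, rfl⟩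
      exact ⟨g * x, act_mul g x f⟩
    obtain ⟨h, hh, hfin⟩ := Pool.Agent.T6.H29.Horo.exists_finite_orbit (G := G) (fun g f => act g f)
      (fun g h f => act_mul g h f) (fun g => continuous_act g) K
      (fun f hf => act_one f (h0 f (hKl hf)))
      ((isCompact_lim S hS).of_isClosed_subset isClosed_closure hKl)
      ⟨_, subset_closure ⟨1, rfl⟩⟩ (((countable_closure A hA hcomm S hS).mono (lim_subset S)).mono hKl)
      hinv
    exact ⟨h, hh, (mem_lim_iff S hS hsymm h).1 (hKl hh), hfin⟩

end Pool.Agent.Results.MP_3614fc_al.VirtuallyAbelian
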